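import Pool.Agent.Y756.KF.One
import Pool.Agent.Y522.NA.StmK

/-!
# Project KF: level preserving smoothing of corank one homeomorphisms, levels in `ℝ^k`
-/

set_option autoImplicit false

open Set Filter Topology Metric Function
open scoped Manifold ContDiff

noncomputable section

namespace Pool.Agent.Y756.KF

open Pool.Agent.Y522 Pool.Agent.Y522.NA Pool.Agent.Y170.NA Pool.Agent.Y761.CI

variable {m : ℕ} {X Y : Type} [TopologicalSpace X] [T2Space X] [ChartedSpace (E (m + 1)) X]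
  [IsManifold (𝓡 (m + 1)) ∞ X] [TopologicalSpace Y] [ChartedSpace (E (m + 1)) Y]
  [IsManifold (𝓡 (m + 1)) ∞ Y]

theorem exists_datK {k : ℕ} (f : X → Y) (τ : Y → E k) (hf : ContMDiff (𝓡 (m + 1)) (𝓡 (m + 1)) ∞ f)
    (hτ : ContMDiff (𝓡 (m + 1)) (𝓡 k) ∞ τ) (hinj : Injective f) (x : X)
    (hd : Surjective (mfderiv (𝓡 (m + 1)) (𝓡 k) (fun x => τ (f x)) x))
    (hrk : m ≤ Module.finrank ℝ
      (LinearMap.range (mfderiv (𝓡 (m + 1)) (𝓡 (m + 1)) f x).toLinearMap))
    (hx : ¬ LD (m + 1) f x) :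
    ∃ D : DatK m f τ, (D.A 0 : X) = x := by
  let Df : E (m + 1) →L[ℝ] E (m + 1) := mfderiv (𝓡 (m + 1)) (𝓡 (m + 1)) f x
  have hDf : HasMFDerivAt (𝓡 (m + 1)) (𝓡 (m + 1)) f x Df :=
    (hf.mdifferentiableAt (by simp)).hasMFDerivAt
  let Dτ : E (m + 1) →L[ℝ] E k := mfderiv (𝓡 (m + 1)) (𝓡 k) τ (f x)
  have hDτ : HasMFDerivAt (𝓡 (m + 1)) (𝓡 k) τ (f x) Dτ :=
    (hτ.mdifferentiableAt (by simp)).hasMFDerivAt
  have hcomp : HasMFDerivAt (𝓡 (m + 1)) (𝓡 k) (fun x => τ (f x)) x (Dτ ∘L Df) :=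
    HasMFDerivAt.comp (g := τ) (f := f) x hDτ hDf
  have hd2 : Surjective (Dτ ∘L Df) := by
    have h0 := hcomp.mfderiv
    rw [h0] at hd
    exact hd
  have hdτ : Surjective (mfderiv (𝓡 (m + 1)) (𝓡 k) τ (f x)) := by
    intro y
    obtain ⟨v, hv⟩ := hd2 y
    exact ⟨Df v, hv⟩
  obtain ⟨e, l, hfe, heLD, hesLD, hel⟩ := exists_adaptedk τ hτ (f x) hdτ
  have : LocallyCompactSpace X := ChartedSpace.locallyCompactSpace (E (m + 1)) X
  obtain ⟨K, hK, hxK, hKV⟩ := exists_compact_subset (e.open_source.preimage hf.continuous)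
    (show x ∈ f ⁻¹' e.source from hfe)
  let U : TopologicalSpace.Opens X := ⟨interior K, isOpen_interior⟩
  have hcl : ∀ y ∈ closure (U : Set X), f y ∈ e.source := by
    intro y hy
    have h1 : closure (interior K) ⊆ K := by
      refine (closure_mono interior_subset).trans ?_
      rw [hK.isClosed.closure_eq]
    exact hKV (h1 hy)
  have hU : ∀ u : U, f u ∈ e.source := fun u => hcl _ (subset_closure u.2)
  have hFs : ∀ u : U, ContMDiffAt (𝓡 (m + 1)) (𝓡 (m + 1)) ∞ (fun u : U => e (f u)) u := fun u =>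
    (heLD _ (hU u)).contMDiffAt.comp u (hf.contMDiffAt.comp u contMDiff_subtype_val.contMDiffAt)
  have hFc : Continuous (fun u : U => e (f u)) :=
    continuous_iff_continuousAt.mpr fun u => (hFs u).continuousAt
  have hFi : Injective (fun u : U => e (f u)) := fun u v huv =>
    Subtype.ext (hinj (e.injOn (hU u) (hU v) huv))
  have hxU : x ∈ U := hxK
  -- differentials
  have he0 : LD (m + 1) (e : Y → E (m + 1)) (f x) := heLD _ hfe
  let De : E (m + 1) →L[ℝ] E (m + 1) := mfderiv (𝓡 (m + 1)) (𝓡 (m + 1)) (e : Y → E (m + 1)) (f x)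
  have hDe : Injective De := he0.mfderiv_injective
  have hval : LD (m + 1) (Subtype.val : U → X) ⟨x, hxU⟩ := LD_val U _
  let Dv : E (m + 1) →L[ℝ] E (m + 1) :=
    mfderiv (𝓡 (m + 1)) (𝓡 (m + 1)) (Subtype.val : U → X) ⟨x, hxU⟩
  have hDv : Injective Dv := hval.mfderiv_injective
  have hDvs : Surjective Dv := by
    have := LinearMap.injective_iff_surjective (f := Dv.toLinearMap)
    exact this.mp hDv
  have hDfn : ¬ Injective Df := fun h => hx (LD_of_injective f hf x h)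
  have hrkDf : Module.finrank ℝ (LinearMap.range Df.toLinearMap) = m := by
    refine le_antisymm ?_ hrk
    by_contra hcon
    apply hDfn
    have h1 : Module.finrank ℝ (LinearMap.range Df.toLinearMap) =
        Module.finrank ℝ (E (m + 1)) := by
      refine le_antisymm (Submodule.finrank_le _) ?_
      rw [finrank_euclideanSpace, Fintype.card_fin]
      omega
    have h2 : LinearMap.range Df.toLinearMap = ⊤ := Submodule.eq_top_of_finrank_eq h1
    have h3 : Surjective Df.toLinearMap := LinearMap.range_eq_top.1 h2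
    exact (LinearMap.injective_iff_surjective (f := Df.toLinearMap)).2 h3
  have hDel : Dτ = l ∘L De := by
    have h1 : HasMFDerivAt (𝓡 (m + 1)) (𝓡 (m + 1)) (e : Y → E (m + 1)) (f x) De :=
      he0.mdifferentiableAt.hasMFDerivAt
    have h2 : HasMFDerivAt (𝓡 (m + 1)) (𝓡 k) (fun w : E (m + 1) => l w) (e (f x)) l :=
      l.hasFDerivAt.hasMFDerivAt
    have h3 : HasMFDerivAt (𝓡 (m + 1)) (𝓡 k) (fun y : Y => l (e y)) (f x) (l ∘L De) :=
      HasMFDerivAt.comp (g := fun w : E (m + 1) => l w) (f := (e : Y → E (m + 1))) (f x) h2 h1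
    have h4 : HasMFDerivAt (𝓡 (m + 1)) (𝓡 k) (fun y : Y => τ y - τ (f x)) (f x) (l ∘L De) := by
      refine h3.congr_of_eventuallyEq ?_
      filter_upwards [e.open_source.mem_nhds hfe] with y hy
      show τ y - τ (f x) = l (e y)
      rw [hel y hy]
    have h5 : HasMFDerivAt (𝓡 (m + 1)) (𝓡 k) (fun y : Y => τ y - τ (f x)) (f x) Dτ := by
      have h6 : HasMFDerivAt (𝓡 k) (𝓡 k) (fun s : E k => s - τ (f x)) (τ (f x))
          (ContinuousLinearMap.id ℝ (E k)) :=
        ((hasFDerivAt_id (τ (f x))).sub_const (τ (f x))).hasMFDerivAt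
      have h7 := HasMFDerivAt.comp (g := fun s : E k => s - τ (f x)) (f := τ) (f x) h6 hDτ
      exact h7
    exact hasMFDerivAt_unique h5 h4
  obtain ⟨P, hP, hPl⟩ := exists_projk (LinearMap.range (De.toLinearMap ∘ₗ Df.toLinearMap)) (by
    rw [LinearMap.range_comp]
    have h1 : Module.finrank ℝ (Submodule.map De.toLinearMap (LinearMap.range Df.toLinearMap)) =
        Module.finrank ℝ (LinearMap.range Df.toLinearMap) :=
      (LinearEquiv.finrank_eq (Submodule.equivMapOfInjective De.toLinearMap hDe _)).symm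
    rw [h1]
    exact hrkDf) l.toLinearMap (by
    intro y
    obtain ⟨v, hv⟩ := hd2 y
    rw [hDel] at hv
    exact ⟨_, ⟨v, rfl⟩, hv⟩)
  have hPs : ∀ᶠ y in 𝓝 (⟨x, hxU⟩ : U),
      ContMDiffAt (𝓡 (m + 1)) (𝓡 m) ∞ (fun u : U => P (e (f u))) y :=
    Eventually.of_forall fun u =>
      ContMDiffAt.comp (g := fun w : E (m + 1) => P w) u P.contMDiff.contMDiffAt (hFs u)
  have hPd : Surjective (mfderiv (𝓡 (m + 1)) (𝓡 m) (fun u : U => P (e (f u))) ⟨x, hxU⟩) := by
    have hd' : mfderiv (𝓡 (m + 1)) (𝓡 m) (fun u : U => P (e (f u))) ⟨x, hxU⟩ =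
        P ∘L (De ∘L (Df ∘L Dv)) := by
      have d1 : HasMFDerivAt (𝓡 (m + 1)) (𝓡 (m + 1)) (Subtype.val : U → X) ⟨x, hxU⟩ Dv :=
        hval.mdifferentiableAt.hasMFDerivAt
      have d2 : HasMFDerivAt (𝓡 (m + 1)) (𝓡 (m + 1)) f ((⟨x, hxU⟩ : U) : X) Df := hDf
      have d3 : HasMFDerivAt (𝓡 (m + 1)) (𝓡 (m + 1)) (e : Y → E (m + 1))
          (f ((⟨x, hxU⟩ : U) : X)) De := he0.mdifferentiableAt.hasMFDerivAt
      have d4 : HasMFDerivAt (𝓡 (m + 1)) (𝓡 m) (fun w : E (m + 1) => P w)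
          (e (f ((⟨x, hxU⟩ : U) : X))) P := P.hasFDerivAt.hasMFDerivAt
      have c1 : HasMFDerivAt (𝓡 (m + 1)) (𝓡 (m + 1)) (fun u : U => f u) ⟨x, hxU⟩ (Df ∘L Dv) :=
        HasMFDerivAt.comp (g := f) (f := (Subtype.val : U → X)) (⟨x, hxU⟩ : U) d2 d1
      have c2 : HasMFDerivAt (𝓡 (m + 1)) (𝓡 (m + 1)) (fun u : U => e (f u)) ⟨x, hxU⟩
          (De ∘L (Df ∘L Dv)) :=
        HasMFDerivAt.comp (g := (e : Y → E (m + 1))) (f := fun u : U => f u) (⟨x, hxU⟩ : U) d3 c1
      exact (HasMFDerivAt.comp (g := fun w : E (m + 1) => P w) (f := fun u : U => e (f u))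
        (⟨x, hxU⟩ : U) d4 c2).mfderiv
    rw [hd']
    intro y
    obtain ⟨w, ⟨v, hv⟩, hw⟩ := hP y
    obtain ⟨v', hv'⟩ := hDvs v
    refine ⟨v', ?_⟩
    show P (De (Df (Dv v'))) = y
    rw [hv', ← hw, ← hv]
    rfl
  obtain ⟨A, L, b, hA, hNB, hLP⟩ := nbox' (fun u : U => e (f u)) hFc hFi ⟨x, hxU⟩ P hPs hPd
  obtain ⟨η, hη, hstep⟩ := hStep m U (fun u : U => e (f u)) A L b hFc hNB
  refine ⟨⟨U, e, A, L, b, η, heLD, hesLD, ?_, hcl, hNB, hη, hstep⟩, congrArg Subtype.val hA⟩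
  intro y hy y' hy' hyy
  have h1 : tl (L (e y - e y')) = 0 := by
    rw [map_sub, map_sub, hyy, sub_self]
  have h2 : l (e y - e y') = 0 := hPl _ (hLP _ h1)
  rw [map_sub, hel y hy, hel y' hy'] at h2
  have h3 : τ y - τ y' = 0 := by
    rw [← h2]
    abel
  exact sub_eq_zero.1 h3

/-- **Level preserving smoothing of corank one homeomorphisms.** -/
theorem kl : StKL := by
  intro q m X Y _ _ _ _ _ _ _ _ f τ hf hτ hd hrk hB
  classical
  have hex : ∀ x : {x : X // ¬ LD (m + 1) f x}, ∃ D : DatK m (f : X → Y) τ, (D.A 0 : X) = x :=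
    fun x => exists_datK (f : X → Y) τ hf hτ f.injective x (hd x) (hrk x) x.2
  choose D hD using hex
  -- the finite cover
  have haLD : ∀ x, ∀ z ∈ box m 1 1, LD (m + 1) (fun w => ((D x).A w : X)) z := fun x z hz =>
    LD.comp_fun (LD_val _ _) ((D x).nb.ld z hz)
  have hopen : ∀ x, IsOpen ((fun w => ((D x).A w : X)) ''
      {z : E (m + 1) | ‖tl z‖ < 1 / 4 ∧ |z 0| < 1 / 4}) := by
    intro x
    apply isOpen_image_of_LD (n := m + 1) (Pool.Agent.Y870.SH.open_small_box (1 / 4))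
    intro z hz
    apply haLD x
    exact ⟨by have := hz.1; linarith, by have := hz.2; linarith⟩
  obtain ⟨t, ht⟩ := hB.elim_finite_subcover
    (fun x : {x : X // ¬ LD (m + 1) f x} => (fun w => ((D x).A w : X)) ''
      {z : E (m + 1) | ‖tl z‖ < 1 / 4 ∧ |z 0| < 1 / 4})
    hopen
    (by
      intro x hx
      rw [mem_iUnion]
      refine ⟨⟨x, hx⟩, 0, ⟨?_, ?_⟩, hD ⟨x, hx⟩⟩
      · rw [map_zero, norm_zero]; norm_num
      · change |(0:ℝ)| < 1 / 4
        rw [abs_zero]; norm_num)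
  set N := t.card with hNdef
  let D' : Fin N → DatK m (f : X → Y) τ := fun i => D (t.equivFin.symm i : {x : X // ¬ LD (m + 1) f x})
  have hcov : ∀ x : X, ¬ LD (m + 1) f x →
      ∃ i : Fin N, ∃ z ∈ box m (1 / 4) (1 / 4), ((D' i).A z : X) = x := by
    intro x hx
    have h1 := ht hx
    simp only [mem_iUnion] at h1
    obtain ⟨y, hy, z, hz, hzx⟩ := h1
    refine ⟨t.equivFin ⟨y, hy⟩, z, ⟨hz.1.le, hz.2.le⟩, ?_⟩
    show ((D (t.equivFin.symm (t.equivFin ⟨y, hy⟩) : {x : X // ¬ LD (m + 1) f x})).A z : X) = x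
    rw [Equiv.symm_apply_apply]
    exact hzx
  -- the neighbourhood of the graph
  let W : Fin N → Set (X × Y) := fun j =>
    {p | p.1 ∉ closure ((D' j).U : Set X)} ∪
    (((f ⁻¹' (D' j).e.source) ×ˢ (D' j).e.source) ∩
      (fun p : X × Y => ‖(D' j).e p.2 - (D' j).e (f p.1)‖) ⁻¹' (Iio (D' j).η))
  have hW : ∀ j, IsOpen (W j) := by
    intro j
    refine IsOpen.union ?_ ?_
    · exact isClosed_closure.isOpen_compl.preimage continuous_fst
    · set e := (D' j).e with he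
      have h1 : IsOpen ((f ⁻¹' e.source) ×ˢ e.source) :=
        (e.open_source.preimage hf.continuous).prod e.open_source
      refine ContinuousOn.isOpen_inter_preimage ?_ h1 isOpen_Iio
      have c1 : ContinuousOn (fun p : X × Y => e p.2) ((f ⁻¹' e.source) ×ˢ e.source) :=
        e.continuousOn.comp continuous_snd.continuousOn fun p hp => hp.2
      have c2 : ContinuousOn (fun p : X × Y => e (f p.1)) ((f ⁻¹' e.source) ×ˢ e.source) :=
        e.continuousOn.comp (hf.continuous.comp continuous_fst).continuousOn fun p hp => hp.1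
      exact (c1.sub c2).norm
  let O' : Set (X × Y) := ⋂ j, W j
  have hO' : IsOpen O' := isOpen_iInter_of_finite hW
  have hfO' : ∀ x, (x, f x) ∈ O' := by
    intro x
    refine mem_iInter.2 fun j => ?_
    by_cases hx : x ∈ closure ((D' j).U : Set X)
    · refine Or.inr ⟨⟨(D' j).clo x hx, (D' j).clo x hx⟩, ?_⟩
      show ‖(D' j).e (f x) - (D' j).e (f x)‖ < _
      rw [sub_self, norm_zero]
      exact (D' j).pos
    · exact Or.inl hx
  have hOD : ∀ p ∈ O', ∀ j, p.1 ∈ closure ((D' j).U : Set X) →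
      p.2 ∈ (D' j).e.source ∧ ‖(D' j).e p.2 - (D' j).e (f p.1)‖ < (D' j).η := by
    intro p hp j hpj
    rcases mem_iInter.1 hp j with h | h
    · exact absurd hpj h
    · exact ⟨h.1.2, h.2⟩
  have hind : ∀ k : ℕ, k ≤ N → ∃ G : X → Y, InvK m (f : X → Y) τ D' O' k G := by
    intro k
    induction k with
    | zero =>
      intro _
      refine ⟨f, hf, f.bijective, hfO', ?_, fun i hi => absurd hi (Nat.not_lt_zero _),
        fun x hx => hx, fun x => rfl, fun x _ => rfl⟩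
      intro j z hz
      have := Pool.Agent.Y870.SH.NBox_fderiv (D' j).nb hz
      have h2 : fderiv ℝ (fun w => tl ((D' j).L ((D' j).e (f ((D' j).A w : X))))) z = tl := this
      rw [h2, sub_self, norm_zero]
      exact (D' j).pos
    | succ k ih =>
      intro hk
      obtain ⟨G, hG⟩ := ih (by omega)
      exact step_oneK (f : X → Y) τ D' O' hO' hOD k (by omega) G hG
  obtain ⟨G, hG⟩ := hind N le_rfl
  refine ⟨G, ⋃ j : Fin N, (fun w => ((D' j).A w : X)) '' box m 1 1, ?_, hG.bij, fun x => ?_,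
    hG.lev, fun x hx => hG.off x fun j hj => hx (mem_iUnion.2 ⟨j, hj⟩)⟩
  · refine isCompact_iUnion fun j => ?_
    exact (isCompact_box 1 1).image_of_continuousOn fun z hz =>
      (haLD _ z hz).continuousAt.continuousWithinAt
  · by_cases hx : LD (m + 1) f x
    · exact hG.keep x hx
    · obtain ⟨i, z, hz, rfl⟩ := hcov x hx
      exact hG.good i i.2 z hz

end Pool.Agent.Y756.KF
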