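import Pool.Agent.Y761.CI.Pre

/-!
# Project KF: preparations for level preserving smoothing, levels in `ℝ^k`
-/

set_option autoImplicit false

open Set Filter Topology Metric Function
open scoped Manifold ContDiff

noncomputable section

namespace Pool.Agent.Y756.KF

open Pool.Agent.Y522
open Pool.Agent.Y641.SH (LD_chart)

/-- A projection which is onto on a given hyperplane and through which a given linear map
factors. -/
theorem exists_projk {k m : ℕ} (W : Submodule ℝ (E (m + 1))) (h : Module.finrank ℝ W = m)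
    (l : E (m + 1) →ₗ[ℝ] E k) (hl : ∀ y, ∃ w ∈ W, l w = y) :
    ∃ P : E (m + 1) →L[ℝ] E m, (∀ y, ∃ w ∈ W, P w = y) ∧ ∀ v, P v = 0 → l v = 0 := by
  obtain ⟨v0, hv0, hv0W⟩ : ∃ v0 ∈ LinearMap.ker l, v0 ∉ W := by
    by_contra hcon
    push Not at hcon
    have hle : LinearMap.ker l ≤ W := hcon
    have h1 := LinearMap.finrank_range_add_finrank_ker l
    have h2 := LinearMap.finrank_range_add_finrank_ker (l ∘ₗ W.subtype)
    have h3 : LinearMap.range l = ⊤ := by
      rw [LinearMap.range_eq_top]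
      intro y
      obtain ⟨w, -, hw⟩ := hl y
      exact ⟨w, hw⟩
    have h4 : LinearMap.range (l ∘ₗ W.subtype) = ⊤ := by
      rw [LinearMap.range_eq_top]
      intro y
      obtain ⟨w, hw, hwy⟩ := hl y
      exact ⟨⟨w, hw⟩, hwy⟩
    have h5 : Module.finrank ℝ (LinearMap.ker (l ∘ₗ W.subtype)) =
        Module.finrank ℝ (LinearMap.ker l) := by
      rw [LinearMap.ker_comp]
      exact (Submodule.comapSubtypeEquivOfLe hle).finrank_eq
    rw [h3] at h1
    rw [h4, h5] at h2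
    have h6 : Module.finrank ℝ (E (m + 1)) = m + 1 := by
      rw [finrank_euclideanSpace, Fintype.card_fin]
    omega
  have hv0ne : v0 ≠ 0 := fun h0 => hv0W (by rw [h0]; exact W.zero_mem)
  have hq : Module.finrank ℝ (E (m + 1) ⧸ Submodule.span ℝ {v0}) = Module.finrank ℝ (E m) := by
    have h1 := Submodule.finrank_quotient_add_finrank (Submodule.span ℝ {v0})
    rw [finrank_span_singleton hv0ne, finrank_euclideanSpace, Fintype.card_fin] at h1
    rw [finrank_euclideanSpace, Fintype.card_fin]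
    omega
  let φ : (E (m + 1) ⧸ Submodule.span ℝ {v0}) ≃ₗ[ℝ] E m := LinearEquiv.ofFinrankEq _ _ hq
  let P0 : E (m + 1) →ₗ[ℝ] E m := φ.toLinearMap ∘ₗ (Submodule.span ℝ {v0}).mkQ
  have hker : ∀ v, P0 v = 0 → v ∈ Submodule.span ℝ {v0} := by
    intro v hv
    have h1 : φ ((Submodule.span ℝ {v0}).mkQ v) = 0 := hv
    have h2 : (Submodule.span ℝ {v0}).mkQ v = 0 := by
      rw [← map_zero φ] at h1
      exact φ.injective h1
    rw [Submodule.mkQ_apply, Submodule.Quotient.mk_eq_zero] at h2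
    exact h2
  refine ⟨LinearMap.toContinuousLinearMap P0, ?_, ?_⟩
  · have hinj : Injective (P0 ∘ₗ W.subtype) := by
      rw [← LinearMap.ker_eq_bot, LinearMap.ker_eq_bot']
      intro w hw
      obtain ⟨c, hc⟩ := Submodule.mem_span_singleton.1 (hker _ hw)
      by_cases hc0 : c = 0
      · rw [hc0, zero_smul] at hc
        exact Subtype.ext hc.symm
      · exfalso
        apply hv0W
        have h1 : v0 = c⁻¹ • (w : E (m + 1)) := by
          have h2 : c • v0 = (w : E (m + 1)) := hc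
          rw [← h2, smul_smul, inv_mul_cancel₀ hc0, one_smul]
        rw [h1]
        exact W.smul_mem _ w.2
    have hsurj : Surjective (P0 ∘ₗ W.subtype) := by
      have h1 : Module.finrank ℝ W = Module.finrank ℝ (E m) := by
        rw [h, finrank_euclideanSpace, Fintype.card_fin]
      exact (LinearMap.injective_iff_surjective_of_finrank_eq_finrank h1).1 hinj
    intro y
    obtain ⟨w, hw⟩ := hsurj y
    exact ⟨w, w.2, hw⟩
  · intro v hv
    obtain ⟨c, hc⟩ := Submodule.mem_span_singleton.1 (hker v hv)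
    rw [← hc, map_smul, LinearMap.mem_ker.1 hv0, smul_zero]

/-- coordinates near a point in which a submersion to `ℝ^k` is linear -/
theorem adaptk {k m : ℕ} {X : Type} [TopologicalSpace X] [ChartedSpace (E (m + 1)) X]
    [IsManifold (𝓡 (m + 1)) ∞ X] (f : X → E k) (x : X)
    (hf : ∀ᶠ y in 𝓝 x, ContMDiffAt (𝓡 (m + 1)) (𝓡 k) ∞ f y)
    (hd : Surjective (mfderiv (𝓡 (m + 1)) (𝓡 k) f x)) :
    ∃ (e : X → E (m + 1)) (l : E (m + 1) →L[ℝ] E k), LD (m + 1) e x ∧
      ∀ᶠ y in 𝓝 x, l (e y) = f y - f x := by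
  obtain ⟨φ, hφ⟩ : ∃ φ, φ = chartAt (E (m + 1)) x := ⟨_, rfl⟩
  have hxs : x ∈ φ.source := by rw [hφ]; exact mem_chart_source _ x
  have hLD : LD (m + 1) φ x := by rw [hφ]; exact LD_chart x
  obtain ⟨p, hp⟩ : ∃ p, p = φ x := ⟨_, rfl⟩
  obtain ⟨g, hg⟩ : ∃ g : E (m + 1) → E k, g = fun z => f (φ.symm z) := ⟨_, rfl⟩
  have hpt : p ∈ φ.target := by rw [hp]; exact φ.map_source hxs
  have hpx : φ.symm p = x := by rw [hp]; exact φ.left_inv hxs
  have hsym : ∀ z ∈ φ.target, ContMDiffAt (𝓡 (m + 1)) (𝓡 (m + 1)) ∞ φ.symm z := by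
    intro z hz
    rw [hφ] at hz ⊢
    exact (contMDiffOn_chart_symm z hz).contMDiffAt ((chartAt (E (m + 1)) x).open_target.mem_nhds hz)
  have hgs : ∀ᶠ z in 𝓝 p, ContDiffAt ℝ ∞ g z := by
    have h1 : Tendsto φ.symm (𝓝 p) (𝓝 x) := by
      have := φ.symm.continuousAt (x := p) hpt
      rw [ContinuousAt, hpx] at this
      exact this
    filter_upwards [h1.eventually hf, φ.open_target.mem_nhds hpt] with z hz hzt
    rw [hg]
    exact contMDiffAt_iff_contDiffAt.1 (hz.comp z (hsym z hzt))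
  have hgp : ContDiffAt ℝ ∞ g p := hgs.self_of_nhds
  obtain ⟨l, hl⟩ : ∃ l, l = fderiv ℝ g p := ⟨_, rfl⟩
  have hgd : HasFDerivAt g l p := by
    rw [hl]
    exact (hgp.differentiableAt (by simp)).hasFDerivAt
  have hgφ : ∀ᶠ y in 𝓝 x, f y = g (φ y) := by
    filter_upwards [φ.open_source.mem_nhds hxs] with y hy
    rw [hg]
    simp only
    rw [φ.left_inv hy]
  have hls : Surjective l := by
    have h1 : f =ᶠ[𝓝 x] g ∘ φ := hgφ
    have h2 : MDifferentiableAt (𝓡 (m + 1)) (𝓡 k) g (φ x) := by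
      rw [← hp]
      exact (hgp.differentiableAt (by simp)).mdifferentiableAt
    have h3 : MDifferentiableAt (𝓡 (m + 1)) (𝓡 (m + 1)) φ x :=
      hLD.contMDiffAt.mdifferentiableAt (by simp)
    rw [h1.mfderiv_eq, mfderiv_comp x h2 h3, mfderiv_eq_fderiv, ← hp, ← hl] at hd
    intro y
    obtain ⟨v, hv⟩ := hd y
    exact ⟨mfderiv (𝓡 (m + 1)) (𝓡 (m + 1)) φ x v, hv⟩
  obtain ⟨s0, hs0⟩ := LinearMap.exists_rightInverse_of_surjective l.toLinearMap
    (LinearMap.range_eq_top.2 hls)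
  let s : E k →L[ℝ] E (m + 1) := LinearMap.toContinuousLinearMap s0
  have hs : ∀ v, l (s v) = v := fun v => congrArg (fun q : E k →ₗ[ℝ] E k => q v) hs0
  obtain ⟨h, hh⟩ : ∃ h : E (m + 1) → E (m + 1),
      h = fun z => (z - p) + s (g z - g p - l (z - p)) := ⟨_, rfl⟩
  have hhd : HasFDerivAt h ((ContinuousLinearEquiv.refl ℝ (E (m + 1)) :
      E (m + 1) ≃L[ℝ] E (m + 1)) : E (m + 1) →L[ℝ] E (m + 1)) p := by
    rw [hh]
    have h1 : HasFDerivAt (fun z : E (m + 1) => z - p) (ContinuousLinearMap.id ℝ _) p :=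
      (hasFDerivAt_id p).sub_const p
    have h3 : HasFDerivAt (fun z : E (m + 1) => l (z - p)) l p := by
      have := l.hasFDerivAt.comp p h1
      rw [ContinuousLinearMap.comp_id] at this
      exact this
    have h4 : HasFDerivAt (fun z : E (m + 1) => g z - g p - l (z - p)) (l - l) p :=
      (hgd.sub_const (g p)).sub h3
    have h4' : HasFDerivAt (fun z : E (m + 1) => s (g z - g p - l (z - p))) (s ∘L (l - l)) p :=
      s.hasFDerivAt.comp p h4
    have h5 := h1.add h4'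
    have h6 : (ContinuousLinearMap.id ℝ (E (m + 1)) : E (m + 1) →L[ℝ] E (m + 1)) + s ∘L (l - l) =
        ((ContinuousLinearEquiv.refl ℝ (E (m + 1)) :
          E (m + 1) ≃L[ℝ] E (m + 1)) : E (m + 1) →L[ℝ] E (m + 1)) := by
      ext v
      simp
    rw [h6] at h5
    exact h5
  have hhs : ∀ᶠ z in 𝓝 p, ContDiffAt ℝ ∞ h z := by
    filter_upwards [hgs] with z hz
    rw [hh]
    have h1 : ContDiffAt ℝ ∞ (fun z : E (m + 1) => z - p) z :=
      contDiffAt_id.sub contDiffAt_const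
    exact h1.add (s.contDiff.contDiffAt.comp z
      ((hz.sub contDiffAt_const).sub (l.contDiff.contDiffAt.comp z h1)))
  have hhLD : LD (m + 1) h p := LD_of_contDiffAt hhs _ hhd
  refine ⟨fun y => h (φ y), l, ?_, ?_⟩
  · rw [hp] at hhLD
    exact LD.comp_fun hhLD hLD
  · filter_upwards [hgφ] with y hy
    rw [hy, hgφ.self_of_nhds, ← hp, hh]
    simp only
    rw [map_add, hs]
    abel

/-- a chart in which a given submersion is linear -/
theorem exists_adaptedk {k m : ℕ} {Y : Type} [TopologicalSpace Y] [ChartedSpace (E (m + 1)) Y]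
    [IsManifold (𝓡 (m + 1)) ∞ Y] (τ : Y → E k) (hτ : ContMDiff (𝓡 (m + 1)) (𝓡 k) ∞ τ) (y0 : Y)
    (hd : Surjective (mfderiv (𝓡 (m + 1)) (𝓡 k) τ y0)) :
    ∃ (e : OpenPartialHomeomorph Y (E (m + 1))) (l : E (m + 1) →L[ℝ] E k), y0 ∈ e.source ∧
      (∀ y ∈ e.source, LD (m + 1) (e : Y → E (m + 1)) y) ∧
      (∀ z ∈ e.target, LD (m + 1) (e.symm : E (m + 1) → Y) z) ∧
      ∀ y ∈ e.source, l (e y) = τ y - τ y0 := by
  obtain ⟨e0, l, he0, hev⟩ := adaptk τ y0 (Eventually.of_forall fun y => hτ.contMDiffAt) hd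
  obtain ⟨Φ, hΦ, heq⟩ := he0
  obtain ⟨s, hs, hso, hys⟩ := _root_.eventually_nhds_iff.1 hev
  let Ψ := Φ.toOpenPartialHomeomorph.restrOpen s hso
  have hsrc : Ψ.source = Φ.source ∩ s := OpenPartialHomeomorph.restrOpen_source _ _ _
  have hLD : ∀ y ∈ Ψ.source, LD (m + 1) (Ψ : Y → E (m + 1)) y := by
    intro y hy
    rw [hsrc] at hy
    exact ⟨Φ, hy.1, fun _ _ => rfl⟩
  refine ⟨Ψ, l, by rw [hsrc]; exact ⟨hΦ, hys⟩, hLD, ?_, ?_⟩
  · intro z hz
    have h2 := LD.inverse (n := m + 1) Ψ.open_source hLD (g := (Ψ.symm : E (m + 1) → Y))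
      (fun x hx => Ψ.left_inv hx) (Ψ.map_target hz)
    rwa [Ψ.right_inv hz] at h2
  · intro y hy
    rw [hsrc] at hy
    have h1 := hs y hy.2
    rw [← h1]
    have h2 : e0 y = Φ.toPartialEquiv y := heq hy.1
    rw [h2]
    rfl

end Pool.Agent.Y756.KF
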