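import Pool.Agent.Y170.NA.One
import Pool.Agent.Y761.CI.Box
import Pool.Agent.Y756.KF.Pre

/-!
# Project KF: one step of the level preserving smoothing, arbitrary levels
-/

set_option autoImplicit false

open Set Filter Topology Metric Function
open scoped Manifold ContDiff

noncomputable section

namespace Pool.Agent.Y756.KF

open Pool.Agent.Y522 Pool.Agent.Y522.NA Pool.Agent.Y170.NA Pool.Agent.Y761.CI

section defs

variable (m : ℕ) {X Y : Type} [TopologicalSpace X] [T2Space X] [ChartedSpace (E (m + 1)) X]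
  [IsManifold (𝓡 (m + 1)) ∞ X] [TopologicalSpace Y] [ChartedSpace (E (m + 1)) Y]

/-- A box in normal form, in charts in which a function is linear. -/
structure DatK (f : X → Y) {Λ : Type} (τ : Y → Λ) where
  U : TopologicalSpace.Opens X
  e : OpenPartialHomeomorph Y (E (m + 1))
  A : E (m + 1) → U
  L : E (m + 1) ≃L[ℝ] E (m + 1)
  b : E m
  η : ℝ
  eLD : ∀ y ∈ e.source, LD (m + 1) (e : Y → E (m + 1)) y
  esLD : ∀ z ∈ e.target, LD (m + 1) (e.symm : E (m + 1) → Y) z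
  lev : ∀ y ∈ e.source, ∀ y' ∈ e.source, tl (L (e y)) = tl (L (e y')) → τ y = τ y'
  clo : ∀ x ∈ closure (U : Set X), f x ∈ e.source
  nb : NBox m (fun u : U => e (f u)) A L b
  pos : 0 < η
  step : ∀ F : U → E (m + 1), Continuous F → Injective F →
      (∀ p, ‖F p - e (f p)‖ ≤ η) →
      (∀ z ∈ box m 1 1,
        ∀ᶠ y in 𝓝 (A z), ContMDiffAt (𝓡 (m + 1)) (𝓡 m) ∞ (fun y => tl (L (F y))) y) →
      (∀ z ∈ box m 1 1, ‖fderiv ℝ (fun w => tl (L (F (A w)))) z - tl‖ ≤ η) →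
      ∀ (N : ℕ) (B : Fin N → E (m + 1) → U) (O : Fin N → Set (E (m + 1))),
      (∀ j, IsCompact (O j)) → (∀ j, ∀ z ∈ O j, LD (m + 1) (B j) z ∧ SmN m F (B j z)) →
      ∀ ε : ℝ, 0 < ε → ∃ F' : U → E (m + 1), Continuous F' ∧ Injective F' ∧
        range F' = range F ∧ (∀ p, p ∉ A '' box m 1 1 → F' p = F p) ∧ (∀ p, ‖F' p - F p‖ ≤ ε) ∧
        (∀ p, tl (L (F' p)) = tl (L (F p))) ∧ (∀ p, SmN m F p → SmN m F' p) ∧
        (∀ p, LD (m + 1) F p → LD (m + 1) F' p) ∧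
        (∀ z ∈ box m (1 / 4) (1 / 4), LD (m + 1) F' (A z)) ∧
        ∀ j, ∀ z ∈ O j,
          ‖fderiv ℝ (fun w => F' (B j w)) z - fderiv ℝ (fun w => F (B j w)) z‖ ≤ ε

/-- the state after `k` steps -/
structure InvK (f : X → Y) {Λ : Type} (τ : Y → Λ) {N : ℕ} (D : Fin N → DatK m f τ) (O : Set (X × Y)) (k : ℕ)
    (G : X → Y) : Prop where
  sm : ContMDiff (𝓡 (m + 1)) (𝓡 (m + 1)) ∞ G
  bij : Bijective G
  gr : ∀ x, (x, G x) ∈ O
  der : ∀ j, ∀ z ∈ box m 1 1,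
    ‖fderiv ℝ (fun w => tl ((D j).L ((D j).e (G ((D j).A w : X))))) z - tl‖ < (D j).η
  good : ∀ i : Fin N, (i : ℕ) < k → ∀ z ∈ box m (1 / 4) (1 / 4), LD (m + 1) G ((D i).A z : X)
  keep : ∀ x, LD (m + 1) f x → LD (m + 1) G x
  lev : ∀ x, τ (G x) = τ (f x)
  off : ∀ x, (∀ j, x ∉ (fun w => ((D j).A w : X)) '' box m 1 1) → G x = f x

end defs

variable {m : ℕ} {X Y : Type} [TopologicalSpace X] [T2Space X] [ChartedSpace (E (m + 1)) X]
  [IsManifold (𝓡 (m + 1)) ∞ X] [TopologicalSpace Y] [ChartedSpace (E (m + 1)) Y]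
  [IsManifold (𝓡 (m + 1)) ∞ Y]

theorem step_oneK (f : X → Y) {Λ : Type} (τ : Y → Λ) {N : ℕ} (D : Fin N → DatK m f τ) (O : Set (X × Y)) (hO : IsOpen O)
    (hOD : ∀ p ∈ O, ∀ j, p.1 ∈ closure ((D j).U : Set X) →
      p.2 ∈ (D j).e.source ∧
      ‖(D j).e p.2 - (D j).e (f p.1)‖ < (D j).η)
    (k : ℕ) (hk : k < N) (G : X → Y) (hG : InvK m f τ D O k G) :
    ∃ G' : X → Y, InvK m f τ D O (k + 1) G' := by
  classical
  set κ : Fin N := ⟨k, hk⟩ with hκ
  set U := (D κ).U with hU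
  set e := (D κ).e with he
  have heLD : ∀ y ∈ e.source, LD (m + 1) (e : Y → E (m + 1)) y := (D κ).eLD
  have hesLD : ∀ z ∈ e.target, LD (m + 1) (e.symm : E (m + 1) → Y) z := (D κ).esLD
  have hsrcj : ∀ j, ∀ u : (D j).U, G u ∈ (D j).e.source := fun j u =>
    (hOD _ (hG.gr u) j (subset_closure u.2)).1
  have hsrc : ∀ u : U, G u ∈ e.source := hsrcj κ
  let F : U → E (m + 1) := fun u => e (G u)
  have hFs : ∀ u, ContMDiffAt (𝓡 (m + 1)) (𝓡 (m + 1)) ∞ F u := fun u =>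
    (heLD _ (hsrc u)).contMDiffAt.comp u (hG.sm.contMDiffAt.comp u contMDiff_subtype_val.contMDiffAt)
  have hFc : Continuous F := continuous_iff_continuousAt.mpr fun u => (hFs u).continuousAt
  have hFi : Injective F := fun u v huv =>
    Subtype.ext (hG.bij.1 (e.injOn (hsrc u) (hsrc v) huv))
  -- the boxes in `X`
  let a : Fin N → E (m + 1) → X := fun j w => ((D j).A w : X)
  have haLD : ∀ j, ∀ z ∈ box m 1 1, LD (m + 1) (a j) z := fun j z hz =>
    LD.comp_fun (LD_val _ _) ((D j).nb.ld z hz)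
  have haC : ∀ j, ContinuousOn (a j) (box m 1 1) := fun j z hz =>
    (haLD j z hz).continuousAt.continuousWithinAt
  let b : Fin N → E (m + 1) → U := fun j w => if h : a j w ∈ U then ⟨a j w, h⟩ else (D κ).A 0
  have hb : ∀ j w, a j w ∈ U → (b j w : X) = a j w := by
    intro j w hw
    show ((if h : a j w ∈ U then ⟨a j w, h⟩ else (D κ).A 0 : U) : X) = a j w
    rw [dif_pos hw]
  have hKUc : IsCompact ((D κ).A '' box m 1 1) :=
    (isCompact_box 1 1).image_of_continuousOn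
      (Pool.Agent.Y870.SH.continuousOn_of_NBox (D κ).nb)
  have hKval : (Subtype.val '' ((D κ).A '' box m 1 1) : Set X) = a κ '' box m 1 1 := by
    rw [image_image]
  have hKc : IsCompact (a κ '' box m 1 1) := (isCompact_box 1 1).image_of_continuousOn (haC κ)
  have hKcl : IsClosed (a κ '' box m 1 1) := hKc.isClosed
  have hKU : ∀ x ∈ a κ '' box m 1 1, x ∈ U := by
    rintro x ⟨w, _, rfl⟩
    exact ((D κ).A w).2
  let Oj : Fin N → Set (E (m + 1)) := fun j => box m 1 1 ∩ a j ⁻¹' (a κ '' box m 1 1)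
  have hOjc : ∀ j, IsCompact (Oj j) := fun j =>
    (isCompact_box 1 1).of_isClosed_subset
      ((haC j).preimage_isClosed_of_isClosed (isCompact_box 1 1).isClosed hKcl) inter_subset_left
  have hOjU : ∀ j, ∀ z ∈ Oj j, a j z ∈ U := fun j z hz => hKU _ hz.2
  have hbLD : ∀ j, ∀ z ∈ Oj j, LD (m + 1) (b j) z := fun j z hz =>
    LD_lift U (haLD j z hz.1) (b j) (hb j) (hOjU j z hz)
  have hsm_tl : ∀ z ∈ box m 1 1, ∀ᶠ y in 𝓝 ((D κ).A z),
      ContMDiffAt (𝓡 (m + 1)) (𝓡 m) ∞ (fun y => tl ((D κ).L (F y))) y := by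
    intro z _
    refine Eventually.of_forall fun y => ?_
    have hT : ContMDiff (𝓡 (m + 1)) (𝓡 m) ∞ (fun w : E (m + 1) => tl ((D κ).L w)) :=
      ((tl : E (m + 1) →L[ℝ] E m) ∘L ((D κ).L : E (m + 1) →L[ℝ] E (m + 1))).contMDiff
    exact ContMDiffAt.comp (g := fun w : E (m + 1) => tl ((D κ).L w)) y hT.contMDiffAt (hFs y)
  have key := fun (ε : ℝ) (hε : 0 < ε) => (D κ).step F hFc hFi
    (fun p => (hOD _ (hG.gr p) κ (subset_closure p.2)).2.le) hsm_tl
    (fun z hz => (hG.der κ z hz).le) N b Oj hOjc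
    (fun j z hz => ⟨hbLD j z hz, Eventually.of_forall fun y => hFs y⟩) ε hε
  choose! F' hc hi hr hoff hcl htl hsmn hld hgd hdd using key
  have htgt : ∀ ε : ℝ, 0 < ε → ∀ u : U, F' ε u ∈ e.target := by
    intro ε hε u
    have h1 : F' ε u ∈ range F := by rw [← hr ε hε]; exact mem_range_self u
    obtain ⟨v, hv⟩ := h1
    rw [← hv]
    exact e.map_source (hsrc v)
  have hF's : ∀ ε : ℝ, 0 < ε → ∀ u : U, ContMDiffAt (𝓡 (m + 1)) (𝓡 (m + 1)) ∞ (F' ε) u :=
    fun ε hε u => (hsmn ε hε u (Eventually.of_forall fun y => hFs y)).self_of_nhds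
  -- first condition
  have ev1 : ∀ᶠ ε in 𝓝[>] (0 : ℝ), ∀ u ∈ (D κ).A '' box m 1 1,
      ((u : X), glue U e (F' ε) G u) ∈ O := by
    refine ev_compact hKUc (P := fun ε (u : U) => ((u : X), glue U e (F' ε) G u) ∈ O)
      fun u₀ _ => ?_
    have t1 := tendsto_unif F' F ((D κ).A '' box m 1 1) u₀ hFc.continuousAt.continuousWithinAt
      (fun ε hε u _ => hcl ε hε u)
    have t2 : Tendsto (e.symm : E (m + 1) → Y) (𝓝 (F u₀)) (𝓝 (e.symm (F u₀))) :=
      (hesLD _ (e.map_source (hsrc u₀))).continuousAt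
    have t3 : Tendsto (fun p : ℝ × U => (p.2 : X)) (𝓝[>] 0 ×ˢ 𝓝[(D κ).A '' box m 1 1] u₀)
        (𝓝 (u₀ : X)) :=
      (continuous_subtype_val.tendsto u₀).comp
        ((tendsto_id.mono_left nhdsWithin_le_nhds).comp tendsto_snd)
    have t4 := t3.prodMk_nhds (t2.comp t1)
    have h0 : ((u₀ : X), e.symm (F u₀)) ∈ O := by
      have : e.symm (F u₀) = G u₀ := e.left_inv (hsrc u₀)
      rw [this]
      exact hG.gr u₀
    filter_upwards [t4.eventually (hO.mem_nhds h0)] with p hp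
    have : glue U e (F' p.1) G p.2 = e.symm (F' p.1 p.2) := glue_in U e (F' p.1) G p.2
    rw [this]
    exact hp
  -- second condition
  have ev2 : ∀ j, ∀ᶠ ε in 𝓝[>] (0 : ℝ), ∀ z ∈ Oj j,
      ‖fderiv ℝ (fun w => tl ((D j).L ((D j).e
        (glue U e (F' ε) G (a j w))))) z - tl‖ < (D j).η := by
    intro j
    set e' := (D j).e with he'
    have he'LD : ∀ y ∈ e'.source, LD (m + 1) (e' : Y → E (m + 1)) y := (D j).eLD
    set T : E (m + 1) →L[ℝ] E m :=
      (tl : E (m + 1) →L[ℝ] E m) ∘L ((D j).L : E (m + 1) →L[ℝ] E (m + 1)) with hT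
    refine ev_compact (hOjc j) (P := fun ε z => ‖fderiv ℝ (fun w => tl ((D j).L (e'
        (glue U e (F' ε) G (a j w))))) z - tl‖ < (D j).η) fun z₀ hz₀ => ?_
    have hb0 : (b j z₀ : X) = a j z₀ := hb j z₀ (hOjU j z₀ hz₀)
    have hGz : e.symm (F (b j z₀)) = G (a j z₀) := by
      have : e.symm (F (b j z₀)) = G (b j z₀) := e.left_inv (hsrc _)
      rw [this, hb0]
    have hGs : G (a j z₀) ∈ e'.source := hsrcj j ((D j).A z₀)
    have hbc : ContinuousAt (b j) z₀ := (hbLD j z₀ hz₀).continuousAt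
    have c1 : ContinuousWithinAt (fun z => F (b j z)) (Oj j) z₀ :=
      (hFc.continuousAt.comp hbc).continuousWithinAt
    have t1 := tendsto_unif (fun ε z => F' ε (b j z)) (fun z => F (b j z)) (Oj j) z₀ c1
      (fun ε hε z _ => hcl ε hε (b j z))
    have cd : ContDiffAt ℝ ∞ (fun w => F (b j w)) z₀ :=
      contMDiffAt_iff_contDiffAt.1 ((hFs _).comp z₀ (hbLD j z₀ hz₀).contMDiffAt)
    have c2 : ContinuousWithinAt (fun z => fderiv ℝ (fun w => F (b j w)) z) (Oj j) z₀ :=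
      (cd.fderiv_right (m := 0) (by simp)).continuousAt.continuousWithinAt
    have t2 := tendsto_unif (fun ε z => fderiv ℝ (fun w => F' ε (b j w)) z)
      (fun z => fderiv ℝ (fun w => F (b j w)) z) (Oj j) z₀ c2
      (fun ε hε z hz => hdd ε hε j z hz)
    have hΨ : LD (m + 1) (fun y => e' (e.symm y)) (F (b j z₀)) :=
      LD.comp_fun (he'LD _ (by rw [hGz]; exact hGs)) (hesLD _ (e.map_source (hsrc _)))
    have c3 : ContinuousAt (fderiv ℝ (fun y => e' (e.symm y))) (F (b j z₀)) :=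
      (hΨ.contDiffAt.fderiv_right (m := 0) (by simp)).continuousAt
    have t3 := c3.tendsto.comp t1
    have t4 : Tendsto (fun p : ℝ × E (m + 1) => T ∘L
        ((fderiv ℝ (fun y => e' (e.symm y)) (F' p.1 (b j p.2))) ∘L
          (fderiv ℝ (fun w => F' p.1 (b j w)) p.2)))
        (𝓝[>] 0 ×ˢ 𝓝[Oj j] z₀) (𝓝 (T ∘L ((fderiv ℝ (fun y => e' (e.symm y)) (F (b j z₀))) ∘L
          (fderiv ℝ (fun w => F (b j w)) z₀)))) := by
      have s1 : Continuous fun q : (E (m + 1) →L[ℝ] E (m + 1)) × (E (m + 1) →L[ℝ] E (m + 1)) =>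
          T ∘L (q.1 ∘L q.2) := by fun_prop
      exact (s1.tendsto _).comp (t3.prodMk_nhds t2)
    have hlim : T ∘L ((fderiv ℝ (fun y => e' (e.symm y)) (F (b j z₀))) ∘L
          (fderiv ℝ (fun w => F (b j w)) z₀)) =
        fderiv ℝ (fun w => tl ((D j).L (e' (G (a j w))))) z₀ := by
      have := der_formula U e e' hesLD he'LD F G (fun u => (e.left_inv (hsrc u)).symm) (a j) (b j)
        T z₀ (haLD j z₀ hz₀.1) (hOjU j z₀ hz₀) (hb j) (hFs _) (e.map_source (hsrc _))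
        (by rw [hGz]; exact hGs)
      exact this.symm
    have t5 : Tendsto (fun p : ℝ × E (m + 1) => ‖T ∘L
        ((fderiv ℝ (fun y => e' (e.symm y)) (F' p.1 (b j p.2))) ∘L
          (fderiv ℝ (fun w => F' p.1 (b j w)) p.2)) - tl‖)
        (𝓝[>] 0 ×ˢ 𝓝[Oj j] z₀)
        (𝓝 ‖fderiv ℝ (fun w => tl ((D j).L (e' (G (a j w))))) z₀ - tl‖) := by
      rw [← hlim]
      exact (t4.sub_const _).norm
    have hlt : ‖fderiv ℝ (fun w => tl ((D j).L (e' (G (a j w))))) z₀ - tl‖ < (D j).η :=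
      hG.der j z₀ hz₀.1
    have ev3 := t5.eventually_lt_const hlt
    have t6 : Tendsto (fun p : ℝ × E (m + 1) => e.symm (F' p.1 (b j p.2)))
        (𝓝[>] 0 ×ˢ 𝓝[Oj j] z₀) (𝓝 (e.symm (F (b j z₀)))) :=
      ((hesLD _ (e.map_source (hsrc _))).continuousAt.tendsto).comp t1
    have ev4 : ∀ᶠ p : ℝ × E (m + 1) in 𝓝[>] 0 ×ˢ 𝓝[Oj j] z₀,
        e.symm (F' p.1 (b j p.2)) ∈ e'.source :=
      t6.eventually (e'.open_source.mem_nhds (by rw [hGz]; exact hGs))
    have ev5 : ∀ᶠ p : ℝ × E (m + 1) in 𝓝[>] 0 ×ˢ 𝓝[Oj j] z₀, 0 < p.1 :=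
      tendsto_fst.eventually self_mem_nhdsWithin
    have ev6 : ∀ᶠ p : ℝ × E (m + 1) in 𝓝[>] 0 ×ˢ 𝓝[Oj j] z₀, p.2 ∈ Oj j :=
      tendsto_snd.eventually self_mem_nhdsWithin
    filter_upwards [ev3, ev4, ev5, ev6] with p h3 h4 h5 h6
    have := der_formula U e e' hesLD he'LD (F' p.1) (glue U e (F' p.1) G)
      (fun u => glue_in U e (F' p.1) G u) (a j) (b j)
      T p.2 (haLD j p.2 h6.1) (hOjU j p.2 h6) (hb j) (hF's p.1 h5 _) (htgt p.1 h5 _) h4
    have e7 : fderiv ℝ (fun w => tl ((D j).L (e' (glue U e (F' p.1) G (a j w))))) p.2 =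
        T ∘L ((fderiv ℝ (fun y => e' (e.symm y)) (F' p.1 (b j p.2))) ∘L
          (fderiv ℝ (fun w => F' p.1 (b j w)) p.2)) := this
    rw [e7]
    exact h3
  obtain ⟨ε, ⟨h1, h2⟩, hε⟩ := ((ev1.and (eventually_all.2 ev2)).and self_mem_nhdsWithin).exists
  have hε0 : 0 < ε := hε
  have hoff' : ∀ u ∉ (D κ).A '' box m 1 1, F' ε u = e (G u) := hoff ε hε0
  have hKcl' : IsClosed (Subtype.val '' ((D κ).A '' box m 1 1) : Set X) := by
    rw [hKval]; exact hKcl
  have hglue_off : ∀ x, x ∉ a κ '' box m 1 1 → glue U e (F' ε) G x = G x := by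
    intro x hx
    exact glue_off U e (F' ε) G hsrc _ hoff' (by rw [hKval]; exact hx)
  refine ⟨glue U e (F' ε) G, ?_, ?_, ?_, ?_, ?_, ?_, ?_, ?_⟩
  · exact glue_smooth U e hesLD (F' ε) G hG.sm hsrc (htgt ε hε0) (hF's ε hε0) _ hKcl' hoff'
  · exact glue_bij U e (F' ε) G hG.bij hsrc (hi ε hε0) (hr ε hε0)
  · intro x
    by_cases hx : x ∈ a κ '' box m 1 1
    · rw [← hKval] at hx
      obtain ⟨u, hu, rfl⟩ := hx
      exact h1 u hu
    · rw [hglue_off x hx]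
      exact hG.gr x
  · intro j z hz
    by_cases hzO : z ∈ Oj j
    · exact h2 j z hzO
    · have hnot : a j z ∉ a κ '' box m 1 1 := fun h => hzO ⟨hz, h⟩
      have hev : (fun w => tl ((D j).L ((D j).e
          (glue U e (F' ε) G ((D j).A w : X))))) =ᶠ[𝓝 z]
          fun w => tl ((D j).L ((D j).e (G ((D j).A w : X)))) := by
        have h3 : ∀ᶠ w in 𝓝 z, a j w ∈ (a κ '' box m 1 1)ᶜ :=
          (haLD j z hz).continuousAt.tendsto.eventually (hKcl.isOpen_compl.mem_nhds hnot)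
        filter_upwards [h3] with w hw
        have : glue U e (F' ε) G ((D j).A w : X) = G ((D j).A w : X) := hglue_off _ hw
        rw [this]
      rw [hev.fderiv_eq]
      exact hG.der j z hz
  · intro i hi' z hz
    rcases Nat.lt_succ_iff_lt_or_eq.1 hi' with h | h
    · exact glue_LD U e hesLD heLD (F' ε) G hsrc (htgt ε hε0) (fun u hu => hld ε hε0 u hu) _
        hKcl' hoff' (hG.good i h z hz)
    · have hiκ : i = κ := Fin.ext h
      rw [hiκ]
      exact glue_LD' U e hesLD (F' ε) G (htgt ε hε0) (hgd ε hε0 z hz)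
  · intro x hx
    exact glue_LD U e hesLD heLD (F' ε) G hsrc (htgt ε hε0) (fun u hu => hld ε hε0 u hu) _
      hKcl' hoff' (hG.keep x hx)
  · intro x
    by_cases hx : x ∈ U
    · have h3 : glue U e (F' ε) G x = e.symm (F' ε ⟨x, hx⟩) := glue_in U e (F' ε) G ⟨x, hx⟩
      rw [h3, ← hG.lev x]
      have h4 : e.symm (F' ε ⟨x, hx⟩) ∈ e.source := e.map_target (htgt ε hε0 ⟨x, hx⟩)
      refine (D κ).lev _ h4 _ (hsrc ⟨x, hx⟩) ?_
      have h5 : e (e.symm (F' ε ⟨x, hx⟩)) = F' ε ⟨x, hx⟩ := e.right_inv (htgt ε hε0 ⟨x, hx⟩)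
      have h6 := htl ε hε0 ⟨x, hx⟩
      change tl ((D κ).L (e (e.symm (F' ε ⟨x, hx⟩)))) = tl ((D κ).L (e (G x)))
      rw [h5]
      exact h6
    · rw [glue_out U e (F' ε) G hx]
      exact hG.lev x
  · intro x hx
    rw [hglue_off x (hx κ)]
    exact hG.off x hx

end Pool.Agent.Y756.KF
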